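import Pool.Agent.Helper72.BH.ClaimC
import Pool.Agent.Helper79.HL.Ramsey

/-!
# The bounded hull lemma from Claim C and the calculus of filled subgroups
-/

set_option autoImplicit false

namespace Pool.Agent.Helper58.HL

open FreeGroup (of)
open Pool.Agent.Helper72.BH
open Pool.Agent.Helper22.OR (Gen)

/-- A subgroup of a free group with `k` generators is free of finite rank. -/
theorem free_of_gen {R k : ℕ} {K : Subgroup (FreeGroup (Fin R))} (h : Gen k K) :
    ∃ m : ℕ, Nonempty (FreeGroup (Fin m) ≃* K) := by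
  obtain ⟨g, hg⟩ := h
  have : IsFreeGroup K := subgroupIsFreeOfIsFree K
  obtain ⟨β, ⟨bas⟩⟩ := IsFreeGroup.nonempty_basis (G := K)
  have hmem : ∀ i, g i ∈ K := fun i => by
    rw [← hg]
    exact Subgroup.subset_closure ⟨i, rfl⟩
  have htop : Subgroup.closure (Set.range fun i => (⟨g i, hmem i⟩ : K)) = ⊤ := by
    apply Subgroup.map_injective (Subgroup.subtype_injective K)
    rw [MonoidHom.map_closure, ← MonoidHom.range_eq_map, Subgroup.range_subtype,
      ← Set.range_comp]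
    exact hg
  obtain ⟨hfin, -⟩ := Pool.Agent.Helper22.OR.card_le_of_gen bas.repr.symm _ htop
  obtain ⟨eb⟩ : Nonempty (Fin (Nat.card β) ≃ β) := ⟨(Finite.equivFin _).symm⟩
  exact ⟨_, ⟨(FreeGroup.freeGroupCongr eb).trans bas.repr.symm⟩⟩

theorem gen_sup' {G : Type} [Group G] {j k : ℕ} {A B : Subgroup G} (hA : Gen j A) (hB : Gen k B) :
    Gen (j + k) (A ⊔ B) := by
  obtain ⟨a, ha⟩ := hA
  obtain ⟨b, hb⟩ := hB
  refine ⟨Fin.append a b, ?_⟩
  rw [← ha, ← hb, ← Subgroup.closure_union]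
  congr 1
  ext x
  constructor
  · rintro ⟨i, rfl⟩
    refine Fin.addCases (fun i => ?_) (fun i => ?_) i
    · rw [Fin.append_left]
      exact Or.inl ⟨i, rfl⟩
    · rw [Fin.append_right]
      exact Or.inr ⟨i, rfl⟩
  · rintro (⟨i, rfl⟩ | ⟨i, rfl⟩)
    · exact ⟨Fin.castAdd _ i, Fin.append_left _ _ _⟩
    · exact ⟨Fin.natAdd _ i, Fin.append_right _ _ _⟩

/-- A group filled by the trivial group is trivial. -/
theorem filled_bot' {G : Type} [Group G] {k : ℕ} {A : Subgroup G} (h : Filled k ⊥ A) : A = ⊥ := by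
  obtain ⟨-, ⟨g, hg⟩, h2⟩ := h
  rcases k with _ | j
  · rw [← hg]
    have : Set.range g = ∅ := Set.range_eq_empty g
    rw [this, Subgroup.closure_empty]
  · exfalso
    refine h2 j (Subgroup.closure (Set.range (fun i : Fin j => g i.castSucc))) (g (Fin.last j)) rfl
      ⟨_, rfl⟩ ?_ bot_le
    rw [← Subgroup.closure_union, ← hg]
    congr 1
    ext x
    constructor
    · rintro (⟨i, rfl⟩ | hx)
      · exact ⟨_, rfl⟩
      · rw [Set.mem_singleton_iff] at hx
        exact ⟨_, hx.symm⟩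
    · rintro ⟨i, rfl⟩
      refine Fin.lastCases ?_ (fun i => ?_) i
      · exact Or.inr rfl
      · exact Or.inl ⟨i, rfl⟩

theorem gen_iSup_finset {G : Type} [Group G] {ι : Type} (A : ι → Subgroup G)
    (hA : ∀ i, ∃ k, Gen k (A i)) (T : Finset ι) : ∃ k, Gen k (⨆ i ∈ T, A i) := by
  classical
  induction T using Finset.induction_on with
  | empty =>
    refine ⟨0, Fin.elim0, ?_⟩
    simp
  | insert a T _ ih =>
    obtain ⟨k, hk⟩ := ih
    obtain ⟨l, hl⟩ := hA a
    refine ⟨l + k, ?_⟩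
    rw [Finset.iSup_insert]
    exact gen_sup' hl hk

/-- The bounded hull lemma. -/
theorem bhl_free_of (hMN : ∀ R : ℕ, ∃ (D : Type) (_ : DivisionRing D), Nonempty (MN R D)) (N : ℕ) :
    ∃ f : ℕ, ∀ (R : ℕ) (H : Subgroup (FreeGroup (Fin R))) (s : ℕ)
    (A : Fin s → Subgroup (FreeGroup (Fin R))), (∀ i, FilledLe N H (A i)) → (⨆ i, A i) = ⊤ →
    R ≤ f := by
  classical
  obtain ⟨Bd, hBd⟩ := Pool.Agent.Helper79.HL.ramsey.{0, 0, 0} (fun ρ => 6 * ρ + 2) N
  refine ⟨Bd, fun R H s A hA htop => ?_⟩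
  by_contra hR
  push Not at hR
  obtain ⟨D, iD, ⟨M⟩⟩ := hMN R
  have hdim : ∀ i, Module.finrank D (M.V (A i : Set (FreeGroup (Fin R)))) ≤ N := by
    intro i
    obtain ⟨k, hk, hf⟩ := hA i
    exact (M.finrank_V_le hf.gen).trans hk
  have htot : (Finset.univ.sup fun i => M.V (A i : Set (FreeGroup (Fin R)))) = ⊤ := by
    rw [Finset.sup_univ_eq_iSup, ← M.V_iSup, htop, M.V_top]
  have hfr : Module.finrank D
      ↥(Finset.univ.sup fun i => M.V (A i : Set (FreeGroup (Fin R)))) = R := by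
    rw [htot, finrank_top, Module.finrank_fin_fun]
  obtain ⟨T, -, hTn, S, -, hcard, hind, hnot⟩ := hBd D (Fin R → D) (Fin s)
    (fun i => M.V (A i : Set (FreeGroup (Fin R)))) Finset.univ (fun i => inferInstance)
    (fun i _ => hdim i) (by rw [hfr]; exact hR)
  set J₀ : Subgroup (FreeGroup (Fin R)) := ⨆ i ∈ T, A i with hJ₀
  set J : Subgroup (FreeGroup (Fin R)) := M.cl (J₀ : Set (FreeGroup (Fin R))) with hJ
  have hVJ : M.V (J : Set (FreeGroup (Fin R))) =
      T.sup fun i => M.V (A i : Set (FreeGroup (Fin R))) := by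
    rw [hJ, M.V_cl, hJ₀, Finset.sup_eq_iSup, M.V_iSup]
    refine iSup_congr fun i => ?_
    by_cases hi : i ∈ T
    · simp [hi]
    · simp only [hi, iSup_false]
      exact (M.V_eq_bot_iff ⊥).2 rfl
  set B : Fin s → Subgroup (FreeGroup (Fin R)) :=
    fun i => M.cl ((J ⊔ A i : Subgroup (FreeGroup (Fin R))) : Set (FreeGroup (Fin R))) with hB
  have hVB : ∀ i, M.V (B i : Set (FreeGroup (Fin R))) =
      M.V (J : Set (FreeGroup (Fin R))) ⊔ M.V (A i : Set (FreeGroup (Fin R))) := by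
    intro i
    rw [hB]
    simp only
    rw [M.V_cl, M.V_sup]
  have hJB : ∀ i, J ≤ B i := fun i => le_sup_left.trans (M.le_cl _)
  have hcJ : M.Closed J := M.closed_cl _
  have hcB : ∀ i, M.Closed (B i) := fun i => M.closed_cl _
  obtain ⟨i₀, hi₀⟩ := hTn
  have hAJ : ∀ i ∈ T, A i ≤ J := by
    intro i hi
    refine le_trans ?_ (M.le_cl _)
    exact le_iSup₂_of_le (f := fun i (_ : i ∈ T) => A i) i hi le_rfl
  have hHA : ∀ i, H ≤ A i := fun i => by
    obtain ⟨k, -, hf⟩ := hA i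
    exact hf.le
  have hHJ : H ≤ J := (hHA i₀).trans (hAJ i₀ hi₀)
  have hne : J ≠ ⊥ := by
    intro h
    have hH : H = ⊥ := by
      rw [eq_bot_iff, ← h]
      exact hHJ
    have hAbot : ∀ i, A i = ⊥ := by
      intro i
      obtain ⟨k, -, hf⟩ := hA i
      rw [hH] at hf
      exact filled_bot' hf
    have h1 : (⊤ : Subgroup (FreeGroup (Fin R))) = ⊥ := by
      rw [← htop]
      simp [hAbot]
    have h2 := M.finrank_V_top
    rw [h1, (M.V_eq_bot_iff ⊥).2 rfl, finrank_bot] at h2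
    omega
  have hgenA : ∀ i, ∃ k, Gen k (A i) := fun i => by
    obtain ⟨k, -, hf⟩ := hA i
    exact ⟨k, hf.gen⟩
  have hfill : ∀ i ∈ S, ∃ k, Filled k J (B i) := by
    intro i _
    obtain ⟨kA, hkA⟩ := hgenA i
    have hgenJA := gen_sup' (M.closed_gen hcJ) hkA
    obtain ⟨m, ⟨φ⟩⟩ := free_of_gen hgenJA
    have h1 : Filled m J (J ⊔ A i) := by
      refine filled_join φ (ι := Unit) (fun _ => A i) (fun _ => H) (fun _ => hHJ) (fun _ => ?_) ?_
      · obtain ⟨k, -, hf⟩ := hA i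
        exact ⟨k, hf⟩
      · rw [ciSup_unique]
    have h2 := M.filled_cl (J ⊔ A i)
    obtain ⟨m', ⟨φ'⟩⟩ := free_of_gen (M.closed_gen (hcB i))
    exact ⟨_, filled_trans φ' h1 h2⟩
  have hInd : M.Indep J B S := by
    intro w hw hsum
    rw [hVJ] at hsum ⊢
    refine hind w (fun i hi => ?_) hsum
    have h1 := hw i hi
    rw [hVB, hVJ, sup_comm] at h1
    exact h1
  have hlt : ∀ i ∈ S, Module.finrank D (M.V (J : Set (FreeGroup (Fin R)))) <
      Module.finrank D (M.V (B i : Set (FreeGroup (Fin R)))) := by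
    intro i hi
    apply Submodule.finrank_lt_finrank_of_lt
    rw [hVB]
    refine lt_of_le_of_ne le_sup_left fun h => hnot i hi ?_
    rw [← hVJ, h]
    exact le_sup_right
  have h := M.claimC hcJ hne hJB (fun i _ => hcB i) hInd hfill hlt
  rw [hVJ] at h
  omega

end Pool.Agent.Helper58.HL
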