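import Pool.Agent.Helper72.BH.RunDefs
import Pool.Agent.Helper22.OR.Max

/-!
# Project HL: finite graphs which carry a subgroup
-/

set_option autoImplicit false

namespace Pool.Agent.Helper58.HL

open FreeGroup (of)
open Pool.Agent.Helper72.BH
open Pool.Agent.Helper22.OR (Gen)

variable {R : ℕ}

/-- The end of a path. -/
theorem tg_mk {B : Subgroup (FreeGroup (Fin R))} (g : FreeGroup (Fin R)) (x : Fin R) :
    tg (Q := FreeGroup (Fin R) ⧸ B) (((g⁻¹ : FreeGroup (Fin R)) : FreeGroup (Fin R) ⧸ B), x) =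
      (((g * of x)⁻¹ : FreeGroup (Fin R)) : FreeGroup (Fin R) ⧸ B) := by
  change (((of x)⁻¹ * g⁻¹ : FreeGroup (Fin R)) : FreeGroup (Fin R) ⧸ B) = _
  rw [mul_inv_rev]

theorem tg_mk' {B : Subgroup (FreeGroup (Fin R))} (g : FreeGroup (Fin R)) (x : Fin R) :
    tg (Q := FreeGroup (Fin R) ⧸ B) (((of x * g⁻¹ : FreeGroup (Fin R)) : FreeGroup (Fin R) ⧸ B), x) =
      ((g⁻¹ : FreeGroup (Fin R)) : FreeGroup (Fin R) ⧸ B) := by
  change (((of x)⁻¹ * (of x * g⁻¹) : FreeGroup (Fin R)) : FreeGroup (Fin R) ⧸ B) = _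
  rw [inv_mul_cancel_left]

/-- Invariant predicates go along the runs. -/
theorem Run.induct {B : Subgroup (FreeGroup (Fin R))}
    {E : Finset ((FreeGroup (Fin R) ⧸ B) × Fin R)} (p : FreeGroup (Fin R) ⧸ B → Prop)
    (h1 : p ((1 : FreeGroup (Fin R)) : FreeGroup (Fin R) ⧸ B)) (hp : ∀ a ∈ E, (p a.1 ↔ p (tg a)))
    {g : FreeGroup (Fin R)} (hg : Run B E g) :
    p ((g⁻¹ : FreeGroup (Fin R)) : FreeGroup (Fin R) ⧸ B) := by
  induction hg with
  | one => rw [inv_one]; exact h1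
  | mul g x _ he ih =>
    have h := (hp _ he).1 ih
    rw [tg_mk] at h
    exact h
  | inv g x _ he ih =>
    have h := (hp _ he).2 (by rw [tg_mk']; exact ih)
    rw [mul_inv_rev, inv_inv]
    exact h

/-- Connectedness: an invariant predicate which holds at the base holds at all ends of the edges. -/
theorem Reach.induct {B : Subgroup (FreeGroup (Fin R))}
    {E : Finset ((FreeGroup (Fin R) ⧸ B) × Fin R)} (h : Reach B E) (p : FreeGroup (Fin R) ⧸ B → Prop)
    (h1 : p ((1 : FreeGroup (Fin R)) : FreeGroup (Fin R) ⧸ B)) (hp : ∀ a ∈ E, (p a.1 ↔ p (tg a))) :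
    ∀ a ∈ E, p a.1 ∧ p (tg a) := by
  intro a ha
  obtain ⟨g, hg, hga⟩ := h a ha
  have h2 := Run.induct p h1 hp hg
  rw [hga] at h2
  exact ⟨h2, (hp a ha).1 h2⟩

/-- Both ends of a reached edge are ends of runs. -/
theorem Reach.tg_run {B : Subgroup (FreeGroup (Fin R))}
    {E : Finset ((FreeGroup (Fin R) ⧸ B) × Fin R)} (h : Reach B E) {a : (FreeGroup (Fin R) ⧸ B) × Fin R}
    (ha : a ∈ E) : ∃ g, Run B E g ∧ ((g⁻¹ : FreeGroup (Fin R)) : FreeGroup (Fin R) ⧸ B) = tg a := by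
  obtain ⟨g, hg, hga⟩ := h a ha
  have ha' : a = (((g⁻¹ : FreeGroup (Fin R)) : FreeGroup (Fin R) ⧸ B), a.2) := Prod.ext hga.symm rfl
  refine ⟨g * of a.2, Run.mul g a.2 hg (ha' ▸ ha), ?_⟩
  rw [← tg_mk, ← ha']

theorem Reach.union {B : Subgroup (FreeGroup (Fin R))} [DecidableEq ((FreeGroup (Fin R) ⧸ B) × Fin R)]
    {E E' : Finset ((FreeGroup (Fin R) ⧸ B) × Fin R)} (h : Reach B E) (h' : Reach B E') :
    Reach B (E ∪ E') := by
  intro a ha
  rcases Finset.mem_union.1 ha with ha | ha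
  · obtain ⟨g, hg, hga⟩ := h a ha
    exact ⟨g, hg.mono Finset.subset_union_left, hga⟩
  · obtain ⟨g, hg, hga⟩ := h' a ha
    exact ⟨g, hg.mono Finset.subset_union_right, hga⟩

theorem Reach.empty (B : Subgroup (FreeGroup (Fin R))) : Reach B ∅ := fun a ha => by simp at ha

/-- For each element there is a finite graph with a run. -/
theorem exists_run (B : Subgroup (FreeGroup (Fin R))) (g : FreeGroup (Fin R)) :
    ∃ E, Reach B E ∧ Run B E g := by
  classical
  revert g
  apply fg_induct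
  · exact ⟨∅, Reach.empty B, Run.one⟩
  · rintro g x ⟨E, hE, hg⟩
    refine ⟨insert (((g⁻¹ : FreeGroup (Fin R)) : FreeGroup (Fin R) ⧸ B), x) E, ?_,
      Run.mul g x (hg.mono (Finset.subset_insert _ _)) (Finset.mem_insert_self _ _)⟩
    intro a ha
    rcases Finset.mem_insert.1 ha with ha | ha
    · exact ⟨g, hg.mono (Finset.subset_insert _ _), by rw [ha]⟩
    · obtain ⟨g', hg', hga⟩ := hE a ha
      exact ⟨g', hg'.mono (Finset.subset_insert _ _), hga⟩
  · rintro g x ⟨E, hE, hg⟩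
    have hr : Run B (insert (((of x * g⁻¹ : FreeGroup (Fin R)) : FreeGroup (Fin R) ⧸ B), x) E)
        (g * (of x)⁻¹) :=
      Run.inv g x (hg.mono (Finset.subset_insert _ _)) (Finset.mem_insert_self _ _)
    refine ⟨_, ?_, hr⟩
    intro a ha
    rcases Finset.mem_insert.1 ha with ha | ha
    · exact ⟨_, hr, by rw [ha, mul_inv_rev, inv_inv]⟩
    · obtain ⟨g', hg', hga⟩ := hE a ha
      exact ⟨g', hg'.mono (Finset.subset_insert _ _), hga⟩

/-- The elements of `B` with a run form a subgroup. -/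
theorem carry_closure {B : Subgroup (FreeGroup (Fin R))}
    {E : Finset ((FreeGroup (Fin R) ⧸ B) × Fin R)} {S : Set (FreeGroup (Fin R))}
    (hS : Subgroup.closure S = B) (h : ∀ g ∈ S, Run B E g ∧ Run B E g⁻¹) : Carry B E := by
  let H : Subgroup (FreeGroup (Fin R)) :=
    { carrier := {b | b ∈ B ∧ Run B E b ∧ Run B E b⁻¹}
      mul_mem' := by
        rintro a b ⟨ha, ha1, ha2⟩ ⟨hb, hb1, hb2⟩
        refine ⟨B.mul_mem ha hb, Run.mul_left ha ha1 hb1, ?_⟩
        rw [mul_inv_rev]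
        exact Run.mul_left (B.inv_mem hb) hb2 ha2
      one_mem' := ⟨B.one_mem, Run.one, by rw [inv_one]; exact Run.one⟩
      inv_mem' := by
        rintro a ⟨ha, ha1, ha2⟩
        refine ⟨B.inv_mem ha, ha2, ?_⟩
        rw [inv_inv]
        exact ha1 }
  have hle : B ≤ H := by
    rw [← hS]
    refine (Subgroup.closure_le H).2 fun g hg => ?_
    exact ⟨hS ▸ Subgroup.subset_closure hg, (h g hg).1, (h g hg).2⟩
  intro b hb
  exact (hle hb).2.1

/-- A finite graph which carries `B` and contains a given reached graph. -/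
theorem exists_carrier {k : ℕ} {B : Subgroup (FreeGroup (Fin R))} (hB : Gen k B)
    {E₁ : Finset ((FreeGroup (Fin R) ⧸ B) × Fin R)} (h₁ : Reach B E₁) :
    ∃ E, E₁ ⊆ E ∧ Reach B E ∧ Carry B E := by
  classical
  obtain ⟨g, hg⟩ := hB
  choose A hA hA' using exists_run B
  have hun : ∀ s : Finset (FreeGroup (Fin R)), Reach B (E₁ ∪ s.biUnion A) := by
    intro s
    induction s using Finset.induction_on with
    | empty => simpa using h₁
    | insert a s _ ih =>
      rw [Finset.biUnion_insert, Finset.union_left_comm]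
      exact Reach.union (hA a) ih
  let s : Finset (FreeGroup (Fin R)) :=
    Finset.univ.image g ∪ Finset.univ.image (fun i => (g i)⁻¹)
  refine ⟨E₁ ∪ s.biUnion A, Finset.subset_union_left, hun s, ?_⟩
  refine carry_closure hg ?_
  rintro _ ⟨i, rfl⟩
  constructor
  · refine (hA' (g i)).mono ((Finset.subset_biUnion_of_mem A ?_).trans Finset.subset_union_right)
    exact Finset.mem_union_left _ (Finset.mem_image_of_mem _ (Finset.mem_univ i))
  · refine (hA' (g i)⁻¹).mono ((Finset.subset_biUnion_of_mem A ?_).trans Finset.subset_union_right)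
    exact Finset.mem_union_right _ (Finset.mem_image_of_mem (fun i => (g i)⁻¹) (Finset.mem_univ i))

/-- Runs are projected to runs. -/
theorem Run.proj {J B : Subgroup (FreeGroup (Fin R))} (h : J ≤ B)
    [DecidableEq ((FreeGroup (Fin R) ⧸ B) × Fin R)]
    {E : Finset ((FreeGroup (Fin R) ⧸ J) × Fin R)} {g : FreeGroup (Fin R)} (hg : Run J E g) :
    Run B (E.image (projE h)) g := by
  induction hg with
  | one => exact Run.one
  | mul g x _ he ih => exact Run.mul g x ih (Finset.mem_image.2 ⟨_, he, rfl⟩)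
  | inv g x _ he ih => exact Run.inv g x ih (Finset.mem_image.2 ⟨_, he, rfl⟩)

/-- The projection of a reached graph is reached. -/
theorem Reach.proj {J B : Subgroup (FreeGroup (Fin R))} (h : J ≤ B)
    [DecidableEq ((FreeGroup (Fin R) ⧸ B) × Fin R)]
    {E : Finset ((FreeGroup (Fin R) ⧸ J) × Fin R)} (hE : Reach J E) :
    Reach B (E.image (projE h)) := by
  intro a ha
  obtain ⟨a', ha', rfl⟩ := Finset.mem_image.1 ha
  obtain ⟨g, hg, hga⟩ := hE a' ha'
  exact ⟨g, Run.proj h hg, by rw [projE, ← hga]; rfl⟩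

/-- A graph which contains the projection of a reached graph and carries the larger group. -/
theorem exists_carrier_proj {k : ℕ} {J B : Subgroup (FreeGroup (Fin R))} (h : J ≤ B) (hB : Gen k B)
    {E : Finset ((FreeGroup (Fin R) ⧸ J) × Fin R)} (hE : Reach J E) :
    ∃ E', (∀ a ∈ E, projE h a ∈ E') ∧ Reach B E' ∧ Carry B E' := by
  classical
  obtain ⟨E', h1, h2, h3⟩ := exists_carrier hB (Reach.proj h hE)
  exact ⟨E', fun a ha => h1 (Finset.mem_image_of_mem _ ha), h2, h3⟩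

end Pool.Agent.Helper58.HL

namespace Pool.Agent.Helper58.HL

open FreeGroup (of)
open Pool.Agent.Helper72.BH

variable {R : ℕ}

theorem fst_mem_ends {Q : Type} [MulAction (FreeGroup (Fin R)) Q] {E : Finset (Q × Fin R)} {a : Q × Fin R}
    (ha : a ∈ E) : a.1 ∈ ends E := by
  classical
  unfold ends
  rw [Finset.mem_union]
  left
  exact Finset.mem_image.2 ⟨a, ha, rfl⟩

theorem tg_mem_ends {Q : Type} [MulAction (FreeGroup (Fin R)) Q] {E : Finset (Q × Fin R)} {a : Q × Fin R}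
    (ha : a ∈ E) : tg a ∈ ends E := by
  classical
  unfold ends
  rw [Finset.mem_union]
  right
  exact Finset.mem_image.2 ⟨a, ha, rfl⟩

theorem mem_ends {Q : Type} [MulAction (FreeGroup (Fin R)) Q] {E : Finset (Q × Fin R)} {v : Q} :
    v ∈ ends E ↔ ∃ a ∈ E, a.1 = v ∨ tg a = v := by
  classical
  constructor
  · intro h
    unfold ends at h
    rw [Finset.mem_union, Finset.mem_image, Finset.mem_image] at h
    rcases h with ⟨a, ha, h⟩ | ⟨a, ha, h⟩
    · exact ⟨a, ha, Or.inl h⟩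
    · exact ⟨a, ha, Or.inr h⟩
  · rintro ⟨a, ha, rfl | rfl⟩
    · exact fst_mem_ends ha
    · exact tg_mem_ends ha

/-- The base is an end of an edge, if there are edges. -/
theorem base_mem_ends {B : Subgroup (FreeGroup (Fin R))}
    {E : Finset ((FreeGroup (Fin R) ⧸ B) × Fin R)} (h : Reach B E) (hE : E.Nonempty) :
    ((1 : FreeGroup (Fin R)) : FreeGroup (Fin R) ⧸ B) ∈ ends E := by
  by_contra hb
  obtain ⟨a, ha⟩ := hE
  have h1 := Reach.induct h (fun v => v ∉ ends E) hb (fun a ha => by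
    constructor
    · intro h; exact absurd (fst_mem_ends ha) h
    · intro h; exact absurd (tg_mem_ends ha) h) a ha
  exact h1.1 (fst_mem_ends ha)

/-- The graph with the edges `E` is connected (form of `Helper79.HL.peel_exists`). -/
theorem Reach.conn {B : Subgroup (FreeGroup (Fin R))}
    {E : Finset ((FreeGroup (Fin R) ⧸ B) × Fin R)} (h : Reach B E) :
    ∀ v w : {v // v ∈ ends E}, Relation.EqvGen (fun a b => ∃ e : {a // a ∈ E},
      (⟨e.1.1, fst_mem_ends e.2⟩ : {v // v ∈ ends E}) = a ∧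
      (⟨tg e.1, tg_mem_ends e.2⟩ : {v // v ∈ ends E}) = b) v w := by
  have hE : ∀ v : {v // v ∈ ends E}, ∃ hb : ((1 : FreeGroup (Fin R)) : FreeGroup (Fin R) ⧸ B) ∈ ends E,
      Relation.EqvGen (fun a b => ∃ e : {a // a ∈ E},
      (⟨e.1.1, fst_mem_ends e.2⟩ : {v // v ∈ ends E}) = a ∧
      (⟨tg e.1, tg_mem_ends e.2⟩ : {v // v ∈ ends E}) = b) v ⟨_, hb⟩ := by
    rintro ⟨v, hv⟩
    obtain ⟨a, ha, hav⟩ := mem_ends.1 hv
    have hb := base_mem_ends h ⟨a, ha⟩
    refine ⟨hb, ?_⟩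
    have h1 := Reach.induct h (fun v => ∀ hv : v ∈ ends E,
      Relation.EqvGen (fun a b => ∃ e : {a // a ∈ E},
      (⟨e.1.1, fst_mem_ends e.2⟩ : {v // v ∈ ends E}) = a ∧
      (⟨tg e.1, tg_mem_ends e.2⟩ : {v // v ∈ ends E}) = b) ⟨v, hv⟩ ⟨_, hb⟩)
      (fun _ => Relation.EqvGen.refl _) (fun a ha => by
        have h2 : Relation.EqvGen (fun a b => ∃ e : {a // a ∈ E},
          (⟨e.1.1, fst_mem_ends e.2⟩ : {v // v ∈ ends E}) = a ∧
          (⟨tg e.1, tg_mem_ends e.2⟩ : {v // v ∈ ends E}) = b) ⟨a.1, fst_mem_ends ha⟩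
          ⟨tg a, tg_mem_ends ha⟩ := Relation.EqvGen.rel _ _ ⟨⟨a, ha⟩, rfl, rfl⟩
        constructor
        · intro h3 hv'
          exact (h2.symm).trans _ _ _ (h3 (fst_mem_ends ha))
        · intro h3 hv'
          exact h2.trans _ _ _ (h3 (tg_mem_ends ha))) a ha
    rcases hav with h2 | h2
    · subst h2
      exact h1.1 _
    · subst h2
      exact h1.2 _
  intro v w
  obtain ⟨_, h1⟩ := hE v
  obtain ⟨_, h2⟩ := hE w
  exact h1.trans _ _ _ (h2.symm)

/-- The runs of a reached graph end in the ends of the edges. -/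
theorem run_mem_ends {B : Subgroup (FreeGroup (Fin R))}
    {E : Finset ((FreeGroup (Fin R) ⧸ B) × Fin R)} (h : Reach B E) (hE : E.Nonempty)
    {g : FreeGroup (Fin R)} (hg : Run B E g) :
    ((g⁻¹ : FreeGroup (Fin R)) : FreeGroup (Fin R) ⧸ B) ∈ ends E :=
  Run.induct (fun v => v ∈ ends E) (base_mem_ends h hE)
    (fun _ ha => ⟨fun _ => tg_mem_ends ha, fun _ => fst_mem_ends ha⟩) hg

/-- Each end of an edge of a reached graph is the end of a run. -/
theorem exists_run_of_mem_ends {B : Subgroup (FreeGroup (Fin R))}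
    {E : Finset ((FreeGroup (Fin R) ⧸ B) × Fin R)} (h : Reach B E) {v : FreeGroup (Fin R) ⧸ B}
    (hv : v ∈ ends E) : ∃ g, Run B E g ∧ ((g⁻¹ : FreeGroup (Fin R)) : FreeGroup (Fin R) ⧸ B) = v := by
  obtain ⟨a, ha, rfl | rfl⟩ := mem_ends.1 hv
  · exact h a ha
  · exact Reach.tg_run h ha

end Pool.Agent.Helper58.HL
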