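import Pool.Agent.Helper72.BH.Hol
import Pool.Agent.Helper72.BH.Euler
import Pool.Agent.Helper72.BH.Forest
import Pool.Agent.Helper72.BH.Act
import Pool.Agent.Helper58.HL.Carrier

/-!
# Claim C (item (5) of note 2702)
-/

set_option autoImplicit false

namespace Pool.Agent.Helper58.HL

open FreeGroup (of)
open Pool.Agent.Helper72.BH
open Pool.Agent.Helper22.OR (Gen)
open Pool.Agent.Helper79.HL (Peel)

variable {R : ℕ}

theorem run_empty {B : Subgroup (FreeGroup (Fin R))} {g : FreeGroup (Fin R)} (h : Run B ∅ g) : g = 1 := by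
  cases h with
  | one => rfl
  | mul g x _ he => simp at he
  | inv g x _ he => simp at he

/-- A carrier of a nontrivial group has an edge. -/
theorem nonempty_of_carry {B : Subgroup (FreeGroup (Fin R))} (hne : B ≠ ⊥)
    {E : Finset ((FreeGroup (Fin R) ⧸ B) × Fin R)} (hc : Carry B E) : E.Nonempty := by
  by_contra h
  rw [Finset.not_nonempty_iff_eq_empty] at h
  subst h
  apply hne
  rw [eq_bot_iff]
  intro b hb
  rw [Subgroup.mem_bot]
  exact run_empty (hc b hb)

open Classical in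
/-- Claim C from the peeling theorem for cosets. -/
theorem claimC_of {D : Type} [DivisionRing D] (M : MN R D)
    {J : Subgroup (FreeGroup (Fin R))} (hJ : M.Closed J) (hne : J ≠ ⊥) {ι : Type}
    {B : ι → Subgroup (FreeGroup (Fin R))} {I : Finset ι} (hJB : ∀ i, J ≤ B i)
    (hB : ∀ i ∈ I, M.Closed (B i)) (hI : M.Indep J B I) (hfill : ∀ i ∈ I, ∃ k, Filled k J (B i))
    (hlt : ∀ i ∈ I, Module.finrank D (M.V (J : Set (FreeGroup (Fin R)))) <
      Module.finrank D (M.V (B i : Set (FreeGroup (Fin R)))))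
    (hpeel : ∀ (EG : Finset ((FreeGroup (Fin R) ⧸ J) × Fin R)), Reach J EG → EG.Nonempty →
      ∀ ρ : ℕ, 1 ≤ ρ → EG.card + 1 ≤ (ends EG).card + ρ →
      (∀ N : Finset (FreeGroup (Fin R) ⧸ J), N.Nonempty → ∃ v ∈ N,
        (I.filter (fun i => ∃ v' ∈ N, v' ≠ v ∧ proj (hJB i) v' = proj (hJB i) v)).card ≤ 1) →
      2 * ρ ≤ I.card →
      ∃ i ∈ I, Peel (fun a : (FreeGroup (Fin R) ⧸ J) × Fin R => a.1) tg (projE (hJB i)) EG) :
    I.card ≤ 6 * Module.finrank D (M.V (J : Set (FreeGroup (Fin R)))) + 1 := by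
  set ρ := Module.finrank D (M.V (J : Set (FreeGroup (Fin R)))) with hρ
  by_contra hcon
  push Not at hcon
  have hVJ : M.V (J : Set (FreeGroup (Fin R))) ≠ ⊥ := fun h => hne ((M.V_eq_bot_iff J).1 h)
  have hρ1 : 1 ≤ ρ := by
    rw [hρ]
    by_contra h
    have h0 : Module.finrank D (M.V (J : Set (FreeGroup (Fin R)))) = 0 := by omega
    exact hVJ (Submodule.finrank_eq_zero.1 h0)
  obtain ⟨EG, -, hr, hc⟩ := exists_carrier (M.closed_gen hJ) (Reach.empty J)
  have hEG := nonempty_of_carry hne hc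
  have he := M.euler_le hJ hne EG
  rw [← hρ] at he
  have hquiet : ∀ N : Finset (FreeGroup (Fin R) ⧸ J), N.Nonempty → ∃ v ∈ N,
      (I.filter (fun i => ∃ v' ∈ N, v' ≠ v ∧ proj (hJB i) v' = proj (hJB i) v)).card ≤ 1 := by
    intro N hN
    obtain ⟨v, hv, h⟩ := exists_quiet (fun i => proj (hJB i)) N hN I
      (fun c h1 h2 h3 => M.forest_indep hJ hJB hB hI N c h1
        (fun i hi w => by convert h2 i hi w) h3)
    exact ⟨v, hv, by convert h⟩
  obtain ⟨i, hi, hp⟩ := hpeel EG hr hEG ρ hρ1 he hquiet (by omega)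
  obtain ⟨k, hk⟩ := hfill i hi
  obtain ⟨ED, hsub, hrD, hcD⟩ := exists_carrier_proj (hJB i) hk.gen hr
  have hsub' : EG.image (projE (hJB i)) ⊆ ED := by
    intro a ha
    obtain ⟨a', ha', rfl⟩ := Finset.mem_image.1 ha
    exact hsub a' ha'
  have h1 := peel_card (hJB i) hk EG hr hc hEG hp ED hsub'
  have hBne : B i ≠ ⊥ := by
    intro h
    apply hne
    rw [eq_bot_iff, ← h]
    exact hJB i
  have h2 := M.euler_ge hBne ED hrD hcD
  have h3 := hlt i hi
  omega

end Pool.Agent.Helper58.HL
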